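import Mathlib

/-! The abelian scheme of the counterexample to Pink's conjecture (MP_28d749_ag) and its Zariski
topology. -/

set_option autoImplicit false

namespace Pool.Agent.Y804.PK

open MvPolynomial

variable (F : Type) [Field F]

/-- the curve `y² = x³ + B` -/
def W (B : F) : WeierstrassCurve F := ⟨0, 0, 0, 0, B⟩

/-- the points of the fibre over `t`: the product of `E : y² = x³ - 2` and of its two quadratic
twists `E_t : y² = x³ - 2 t³` and `E_{t-1} : y² = x³ - 2 (t - 1)³` -/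
abbrev Fib (t : F) : Type :=
  (W F (-2)).toAffine.Point × (W F (-2 * t ^ 3)).toAffine.Point ×
    (W F (-2 * (t - 1) ^ 3)).toAffine.Point

/-- the points of the abelian scheme `A = E × E_t × E_{t-1}` over `S = 𝔸¹ minus {0, 1}` -/
@[ext] structure A where
  t : F
  ht : t ≠ 0 ∧ t ≠ 1
  P : Fib F t

variable {F}

/-- homogeneous coordinates of a point of a Weierstrass curve in `ℙ²` -/
def coord {V : WeierstrassCurve F} : V.toAffine.Point → Fin 3 → F
  | .zero => ![0, 1, 0]
  | .some x y _ => ![x, y, 1]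

/-- coordinates on `S × ℙ² × ℙ² × ℙ²`: `none` is the coordinate `t` of the base, `some (i, j)` the
`j`-th homogeneous coordinate on the `i`-th factor `ℙ²` -/
abbrev Ix : Type := Option (Fin 3 × Fin 3)

/-- the coordinates of a point of `A` -/
def coordA (a : A F) : Ix → F
  | none => a.t
  | some (i, j) => ![coord a.P.1, coord a.P.2.1, coord a.P.2.2] i j

/-- the multidegree of a variable -/
def mdeg : Ix → (Fin 3 → ℕ)
  | none => 0
  | some (i, _) => Pi.single i 1

/-- multihomogeneous polynomials -/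
def Multihom (G : MvPolynomial Ix F) : Prop := ∃ m : Fin 3 → ℕ, IsWeightedHomogeneous mdeg G m

/-- Zariski closed subsets of `A`: common zeros of multihomogeneous polynomials -/
def ZClosed (Z : Set (A F)) : Prop :=
  ∃ I : Set (MvPolynomial Ix F), (∀ G ∈ I, Multihom G) ∧
    Z = {a | ∀ G ∈ I, eval (coordA a) G = 0}

lemma zclosed_empty : ZClosed (∅ : Set (A F)) := by
  refine ⟨{1}, ?_, ?_⟩
  · rintro G rfl
    exact ⟨0, isWeightedHomogeneous_one F mdeg⟩
  · ext a
    simp

lemma zclosed_sInter {S : Set (Set (A F))} (hS : ∀ Z ∈ S, ZClosed Z) : ZClosed (⋂₀ S) := by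
  refine ⟨{G | Multihom G ∧ ∃ Z ∈ S, ∀ a ∈ Z, eval (coordA a) G = 0}, fun G hG => hG.1, ?_⟩
  ext a
  simp only [Set.mem_sInter, Set.mem_setOf_eq]
  constructor
  · rintro h G ⟨_, Z, hZ, hG⟩
    exact hG a (h Z hZ)
  · intro h Z hZ
    obtain ⟨I, hI, rfl⟩ := hS Z hZ
    intro G hG
    exact h G ⟨hI G hG, _, hZ, fun b hb => hb G hG⟩

lemma zclosed_union {Z₁ Z₂ : Set (A F)} (h₁ : ZClosed Z₁) (h₂ : ZClosed Z₂) :
    ZClosed (Z₁ ∪ Z₂) := by
  obtain ⟨I, hI, rfl⟩ := h₁
  obtain ⟨J, hJ, rfl⟩ := h₂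
  refine ⟨{G | ∃ a ∈ I, ∃ b ∈ J, G = a * b}, ?_, ?_⟩
  · rintro G ⟨a, ha, b, hb, rfl⟩
    obtain ⟨m, hm⟩ := hI a ha
    obtain ⟨n, hn⟩ := hJ b hb
    exact ⟨m + n, hm.mul hn⟩
  · ext a
    simp only [Set.mem_union, Set.mem_setOf_eq]
    constructor
    · rintro (h | h) G ⟨p, hp, q, hq, rfl⟩
      · rw [map_mul, h p hp, zero_mul]
      · rw [map_mul, h q hq, mul_zero]
    · intro h
      by_contra hc
      push Not at hc
      obtain ⟨⟨p, hp, hp'⟩, q, hq, hq'⟩ := hc
      have := h (p * q) ⟨p, hp, q, hq, rfl⟩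
      rw [map_mul] at this
      exact (mul_ne_zero hp' hq') this

/-- the Zariski topology of `A` -/
instance : TopologicalSpace (A F) :=
  TopologicalSpace.ofClosed {Z | ZClosed Z} zclosed_empty
    (fun _ hS => zclosed_sInter hS) (fun _ h₁ _ h₂ => zclosed_union h₁ h₂)

/-- the inclusion of a fibre -/
def incl (t : F) (ht : t ≠ 0 ∧ t ≠ 1) (p : Fib F t) : A F := ⟨t, ht, p⟩

/-- closed subgroup schemes of `A` over `S` (reduced): closed subsets whose intersection with every
fibre is a subgroup -/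
def IsGroupSubscheme [DecidableEq F] (H : Set (A F)) : Prop :=
  IsClosed H ∧ ∀ t ht, ∃ L : AddSubgroup (Fib F t), incl t ht ⁻¹' H = L

/-- the set `A^{[>d]}`: the union of all closed subgroups of codimension `> d` of the fibres (which
have dimension `3`) -/
def Atyp [DecidableEq F] (d : ℕ) : Set (A F) :=
  {a | ∃ L : AddSubgroup (Fib F a.t), a.P ∈ L ∧ IsClosed (incl a.t a.ht '' L) ∧
    topologicalKrullDim (incl a.t a.ht '' (L : Set (Fib F a.t))) + d < 3}

/-- the curve `X`: first coordinate the point `(3, 5)` of `E`, abscissas `3 t` and `3 (t - 1)` on the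
two twists -/
def curveX : Set (A F) :=
  {a | (∃ h, a.P.1 = .some 3 5 h) ∧ (∃ y h, a.P.2.1 = .some (3 * a.t) y h) ∧
    ∃ y h, a.P.2.2 = .some (3 * (a.t - 1)) y h}

end Pool.Agent.Y804.PK
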