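import Pool.Agent.Y804.PK.Main

/-! The counterexample, final part. -/

set_option autoImplicit false

namespace Pool.Agent.Y804.PK

open MvPolynomial WeierstrassCurve.Affine

variable {F : Type} [Field F] [DecidableEq F]

lemma hom_minor2 (c d : F) (i i' j k j' k' : Fin 3) :
    Multihom (C c * (X (some (i, j)) * X (some (i', k))) -
      C d * (X (some (i, j')) * X (some (i', k'))) : MvPolynomial Ix F) := by
  refine ⟨Pi.single i 1 + Pi.single i' 1, ?_⟩
  have h1 := (hom_C c).mul ((hom_X (F := F) i j).mul (hom_X (F := F) i' k))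
  have h2 := (hom_C d).mul ((hom_X (F := F) i j').mul (hom_X (F := F) i' k'))
  rw [zero_add] at h1 h2
  exact Submodule.sub_mem (weightedHomogeneousSubmodule F mdeg _) h1 h2

/-- weights of the homogeneous coordinates -/
def sc (a : F) : Fin 3 → F := ![a ^ 2, a ^ 3, 1]

omit [DecidableEq F] in
lemma eq_scale_iff {a B B' : F} (ha : a ≠ 0) (hB : B' = a ^ 6 * B) [DecidableEq F]
    (P : (W F B).toAffine.Point)
    (Q : (W F B').toAffine.Point) : Q = scale ha hB P ↔
      ∀ j k, (sc a j) * (coord P j * coord Q k) = (sc a k) * (coord P k * coord Q j) := by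
  have key : ∃ l : F, l ≠ 0 ∧ ∀ j, sc a j * coord P j = l * coord (scale ha hB P) j := by
    rcases P with _ | ⟨x, y, h⟩
    · refine ⟨a ^ 3, pow_ne_zero _ ha, ?_⟩
      intro j
      fin_cases j <;> simp [sc, coord, scale_zero']
    · refine ⟨1, one_ne_zero, ?_⟩
      intro j
      fin_cases j <;> simp [sc, coord, scale_some]
  obtain ⟨l, hl, hj⟩ := key
  constructor
  · rintro rfl j k
    linear_combination (coord (scale ha hB P) k) * hj j - (coord (scale ha hB P) j) * hj k
  · intro h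
    apply coord_inj
    symm
    apply coord_eq
    intro j k
    apply mul_left_cancel₀ hl
    linear_combination h j k - (coord Q k) * hj j + (coord Q j) * hj k

section fib

variable {t : F} (ht : t ≠ 0 ∧ t ≠ 1) {a b : F} (ha : a ≠ 0) (hb : b ≠ 0) (h1 : a ^ 2 = t)
  (h2 : b ^ 2 = t - 1)

lemma diag_isClosed : IsClosed (Set.range fun Q => incl t ht (diag ha hb h1 h2 Q)) := by
  rw [isClosed_iff']
  refine ⟨{G | G = X none - C t ∨
    (∃ j k, G = C (sc a j) * (X (some (0, j)) * X (some (1, k))) -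
      C (sc a k) * (X (some (0, k)) * X (some (1, j)))) ∨
    ∃ j k, G = C (sc b j) * (X (some (0, j)) * X (some (2, k))) -
      C (sc b k) * (X (some (0, k)) * X (some (2, j)))}, ?_, ?_⟩
  · rintro G (rfl | ⟨j, k, rfl⟩ | ⟨j, k, rfl⟩)
    · exact ⟨0, Submodule.sub_mem (weightedHomogeneousSubmodule F mdeg _) hom_t (hom_C _)⟩
    · exact hom_minor2 _ _ _ _ _ _ _ _
    · exact hom_minor2 _ _ _ _ _ _ _ _
  · ext x
    simp only [Set.mem_range, Set.mem_setOf_eq]
    constructor
    · rintro ⟨Q, rfl⟩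
      rintro G (rfl | ⟨j, k, rfl⟩ | ⟨j, k, rfl⟩)
      · simp [coordA, incl]
      · have := (eq_scale_iff ha (hB1 h1) Q _).1 rfl j k
        simp only [map_sub, map_mul, eval_C, eval_X]
        exact sub_eq_zero.2 this
      · have := (eq_scale_iff hb (hB2 h2) Q _).1 rfl j k
        simp only [map_sub, map_mul, eval_C, eval_X]
        exact sub_eq_zero.2 this
    · intro h
      obtain ⟨t', ht', P1, P2, P3⟩ := x
      have e0 := h _ (Or.inl rfl)
      simp only [map_sub, eval_X, eval_C] at e0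
      have e0' : t' = t := sub_eq_zero.1 e0
      subst e0'
      refine ⟨P1, ?_⟩
      have e1 : P2 = scale ha (hB1 h1) P1 := by
        rw [eq_scale_iff]
        intro j k
        have := h _ (Or.inr (Or.inl ⟨j, k, rfl⟩))
        simp only [map_sub, map_mul, eval_C, eval_X] at this
        exact sub_eq_zero.1 this
      have e2 : P3 = scale hb (hB2 h2) P1 := by
        rw [eq_scale_iff]
        intro j k
        have := h _ (Or.inr (Or.inr ⟨j, k, rfl⟩))
        simp only [map_sub, map_mul, eval_C, eval_X] at this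
        exact sub_eq_zero.1 this
      subst e1 e2
      rfl

lemma diag_inj : Function.Injective fun Q => incl t ht (diag ha hb h1 h2 Q) := by
  intro Q Q' h
  have h' := eq_of_heq ((A.mk.injEq _ _ _ _ _ _).mp h).2
  exact congrArg Prod.fst h'

lemma diag_krull [CharZero F] [IsAlgClosed F] :
    topologicalKrullDim (Set.range fun Q => incl t ht (diag ha hb h1 h2 Q)) = 1 := by
  refine (krull_one ?_ ?_).2
  · haveI : Infinite (W F (-2)).toAffine.Point := Infinite.of_injective _ (pow_inj (F := F))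
    exact Set.infinite_range_of_injective (diag_inj ht ha hb h1 h2)
  · intro Z hZ
    rcases diag_closed ht ha hb h1 h2 hZ with h | h
    · left
      rintro _ ⟨Q, rfl⟩
      exact h Q
    · right
      refine (h.image fun Q => incl t ht (diag ha hb h1 h2 Q)).subset ?_
      rintro _ ⟨⟨Q, rfl⟩, hQ⟩
      exact ⟨Q, hQ, rfl⟩

end fib

variable [CharZero F] [IsAlgClosed F]

lemma three_t {t y : F} (h : (W F (-2 * t ^ 3)).toAffine.Nonsingular (3 * t) y) :
    y ^ 2 = 25 * t ^ 3 := by
  have := ((ns_iff _ _ _).1 h).1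
  linear_combination this

/-- every point of the curve lies on a diagonal -/
lemma mem_diag {x : A F} (hx : x ∈ curveX) : ∃ (a b : F) (ha : a ≠ 0) (hb : b ≠ 0)
    (h1 : a ^ 2 = x.t) (h2 : b ^ 2 = x.t - 1), x.P = diag ha hb h1 h2 P₀ := by
  obtain ⟨t, ht, P1, P2, P3⟩ := x
  obtain ⟨⟨g1, e1⟩, ⟨y2, g2, e2⟩, ⟨y3, g3, e3⟩⟩ := hx
  simp only at e1 e2 e3
  have t0 : t ≠ 0 := ht.1
  have t1 : t - 1 ≠ 0 := sub_ne_zero.2 ht.2
  have q2 := three_t g2
  have q3 := three_t g3
  have f5 : (5 : F) ≠ 0 := by norm_num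
  have n2 : y2 ≠ 0 := by
    rintro rfl
    have : (25 : F) * t ^ 3 ≠ 0 := mul_ne_zero (by norm_num) (pow_ne_zero _ t0)
    exact this (by rw [← q2]; ring)
  have n3 : y3 ≠ 0 := by
    rintro rfl
    have : (25 : F) * (t - 1) ^ 3 ≠ 0 := mul_ne_zero (by norm_num) (pow_ne_zero _ t1)
    exact this (by rw [← q3]; ring)
  have ha : y2 / (5 * t) ≠ 0 := div_ne_zero n2 (mul_ne_zero f5 t0)
  have hb : y3 / (5 * (t - 1)) ≠ 0 := div_ne_zero n3 (mul_ne_zero f5 t1)
  have h1 : (y2 / (5 * t)) ^ 2 = t := by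
    rw [div_pow, q2]
    field_simp
    norm_num
  have h2 : (y3 / (5 * (t - 1))) ^ 2 = t - 1 := by
    rw [div_pow, q3]
    field_simp
    norm_num
  refine ⟨_, _, ha, hb, h1, h2, ?_⟩
  refine Prod.ext ?_ (Prod.ext ?_ ?_)
  · change P1 = P₀
    rw [e1]
    rfl
  · change P2 = scale ha (hB1 h1) P₀
    unfold P₀
    rw [scale_some, e2]
    refine point_ext _ _ (by rw [h1]; ring) ?_
    have : (y2 / (5 * t)) ^ 3 = (y2 / (5 * t)) ^ 2 * (y2 / (5 * t)) := by ring
    rw [this, h1]
    field_simp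
  · change P3 = scale hb (hB2 h2) P₀
    unfold P₀
    rw [scale_some, e3]
    refine point_ext _ _ (by rw [h2]; ring) ?_
    have : (y3 / (5 * (t - 1))) ^ 3 = (y3 / (5 * (t - 1))) ^ 2 * (y3 / (5 * (t - 1))) := by ring
    rw [this, h2]
    field_simp

lemma curveX_atyp : (curveX : Set (A F)) ⊆ Atyp 1 := by
  intro x hx
  obtain ⟨a, b, ha, hb, h1, h2, e⟩ := mem_diag hx
  have e1 : incl x.t x.ht '' ((diag ha hb h1 h2).range : Set (Fib F x.t)) =
      Set.range fun Q => incl x.t x.ht (diag ha hb h1 h2 Q) := by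
    ext z
    simp only [Set.mem_image, Set.mem_range, SetLike.mem_coe, AddMonoidHom.mem_range]
    constructor
    · rintro ⟨_, ⟨Q, rfl⟩, rfl⟩
      exact ⟨Q, rfl⟩
    · rintro ⟨Q, rfl⟩
      exact ⟨_, ⟨Q, rfl⟩, rfl⟩
  refine ⟨(diag ha hb h1 h2).range, ⟨P₀, e.symm⟩, ?_, ?_⟩
  · rw [e1]
    exact diag_isClosed x.ht ha hb h1 h2
  · rw [e1, diag_krull]
    norm_num

end Pool.Agent.Y804.PK
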