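import Pool.Agent.Y804.PK.Fin

/-! The counterexample: the curve, and closed subgroup schemes containing it. -/

set_option autoImplicit false

namespace Pool.Agent.Y804.PK

open MvPolynomial WeierstrassCurve.Affine

variable {F : Type} [Field F] [CharZero F]

lemma hom_lin (c : F) (i : Fin 3) :
    Multihom (X (some (i, 0)) - C c * X (some (i, 2)) : MvPolynomial Ix F) := by
  refine ⟨Pi.single i 1, ?_⟩
  have h2 := (hom_C c).mul (hom_X (F := F) i 2)
  rw [zero_add] at h2
  exact Submodule.sub_mem (weightedHomogeneousSubmodule F mdeg _) (hom_X i 0) h2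

lemma hom_lin1 (c : F) (i : Fin 3) :
    Multihom (X (some (i, 1)) - C c * X (some (i, 2)) : MvPolynomial Ix F) := by
  refine ⟨Pi.single i 1, ?_⟩
  have h2 := (hom_C c).mul (hom_X (F := F) i 2)
  rw [zero_add] at h2
  exact Submodule.sub_mem (weightedHomogeneousSubmodule F mdeg _) (hom_X i 1) h2

lemma hom_tlin (u c : F) (i : Fin 3) :
    Multihom (X (some (i, 0)) - C c * (X none - C u) * X (some (i, 2)) : MvPolynomial Ix F) := by
  refine ⟨Pi.single i 1, ?_⟩
  have h0 : IsWeightedHomogeneous mdeg (X none - C u : MvPolynomial Ix F) 0 :=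
    Submodule.sub_mem (weightedHomogeneousSubmodule F mdeg _) hom_t (hom_C u)
  have h2 := ((hom_C c).mul h0).mul (hom_X (F := F) i 2)
  rw [zero_add, zero_add] at h2
  exact Submodule.sub_mem (weightedHomogeneousSubmodule F mdeg _) (hom_X i 0) h2

lemma hom_tsq (u c : F) (i : Fin 3) :
    Multihom (X (some (i, 1)) ^ 2 - C c * (X none - C u) ^ 3 * X (some (i, 2)) ^ 2 :
      MvPolynomial Ix F) := by
  refine ⟨2 • Pi.single i 1, ?_⟩
  have h0 : IsWeightedHomogeneous mdeg (X none - C u : MvPolynomial Ix F) 0 :=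
    Submodule.sub_mem (weightedHomogeneousSubmodule F mdeg _) hom_t (hom_C u)
  have h2 := ((hom_C c).mul (h0.pow 3)).mul ((hom_X (F := F) i 2).pow 2)
  rw [smul_zero, zero_add, zero_add] at h2
  exact Submodule.sub_mem (weightedHomogeneousSubmodule F mdeg _) ((hom_X i 1).pow 2) h2

lemma mem_iff_aux (u t : F) (P : (W F (-2 * (t - u) ^ 3)).toAffine.Point) :
    (∃ y h, P = .some (3 * (t - u)) y h) ↔
      coord P 0 = 3 * (t - u) * coord P 2 ∧ (coord P 1) ^ 2 = 25 * (t - u) ^ 3 * (coord P 2) ^ 2 := by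
  constructor
  · rintro ⟨y, h, rfl⟩
    have := ((ns_iff _ _ _).1 h).1
    simp only [coord]
    constructor
    · simp
    · simp only [Matrix.cons_val_one, Matrix.cons_val]
      linear_combination this
  · rintro ⟨h1, h2⟩
    rcases P with _ | ⟨x, y, h⟩
    · simp [coord] at h2
    · simp [coord] at h1
      subst h1
      exact ⟨y, h, rfl⟩

lemma mem_iff_aux0 (P : (W F (-2)).toAffine.Point) :
    (∃ h, P = .some 3 5 h) ↔ coord P 0 = 3 * coord P 2 ∧ coord P 1 = 5 * coord P 2 := by
  constructor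
  · rintro ⟨h, rfl⟩
    simp [coord]
  · rintro ⟨h1, h2⟩
    rcases P with _ | ⟨x, y, h⟩
    · simp [coord] at h2
    · simp [coord] at h1 h2
      subst h1 h2
      exact ⟨h, rfl⟩

lemma curveX_closed : IsClosed (curveX : Set (A F)) := by
  rw [isClosed_iff']
  refine ⟨{G | G = X (some (0, 0)) - C 3 * X (some (0, 2)) ∨
    G = X (some (0, 1)) - C 5 * X (some (0, 2)) ∨
    G = X (some (1, 0)) - C 3 * (X none - C 0) * X (some (1, 2)) ∨
    G = X (some (1, 1)) ^ 2 - C 25 * (X none - C 0) ^ 3 * X (some (1, 2)) ^ 2 ∨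
    G = X (some (2, 0)) - C 3 * (X none - C 1) * X (some (2, 2)) ∨
    G = X (some (2, 1)) ^ 2 - C 25 * (X none - C 1) ^ 3 * X (some (2, 2)) ^ 2}, ?_, ?_⟩
  · rintro G (rfl | rfl | rfl | rfl | rfl | rfl)
    · exact hom_lin _ _
    · exact hom_lin1 _ _
    · exact hom_tlin _ _ _
    · exact hom_tsq _ _ _
    · exact hom_tlin _ _ _
    · exact hom_tsq _ _ _
  · ext x
    obtain ⟨t, ht, P1, P2, P3⟩ := x
    have k1 := mem_iff_aux0 P1
    have k3 := mem_iff_aux 1 t P3
    have k2 : (∃ y h, P2 = .some (3 * t) y h) ↔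
        coord P2 0 = 3 * t * coord P2 2 ∧ (coord P2 1) ^ 2 = 25 * t ^ 3 * (coord P2 2) ^ 2 := by
      constructor
      · rintro ⟨y, h, rfl⟩
        have := ((ns_iff _ _ _).1 h).1
        simp only [coord]
        constructor
        · simp
        · simp only [Matrix.cons_val_one, Matrix.cons_val]
          linear_combination this
      · rintro ⟨h1, h2⟩
        rcases P2 with _ | ⟨x, y, h⟩
        · simp [coord] at h2
        · simp [coord] at h1
          subst h1
          exact ⟨y, h, rfl⟩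
    change ((∃ h, P1 = .some 3 5 h) ∧ (∃ y h, P2 = .some (3 * t) y h) ∧
      ∃ y h, P3 = .some (3 * (t - 1)) y h) ↔ _
    rw [k1, k2, k3]
    simp only [Set.mem_setOf_eq]
    constructor
    · rintro ⟨⟨a1, a2⟩, ⟨a3, a4⟩, a5, a6⟩ G (rfl | rfl | rfl | rfl | rfl | rfl)
      · simp [coordA, a1]
      · simp [coordA, a2]
      · simp [coordA, a3]
      · simp [coordA, a4]
      · simp [coordA, a5]
      · simp [coordA, a6]
    · intro h
      have b1 := h _ (Or.inl rfl)
      have b2 := h _ (Or.inr (Or.inl rfl))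
      have b3 := h _ (Or.inr (Or.inr (Or.inl rfl)))
      have b4 := h _ (Or.inr (Or.inr (Or.inr (Or.inl rfl))))
      have b5 := h _ (Or.inr (Or.inr (Or.inr (Or.inr (Or.inl rfl)))))
      have b6 := h _ (Or.inr (Or.inr (Or.inr (Or.inr (Or.inr rfl)))))
      simp only [map_sub, map_mul, map_pow, eval_C, eval_X, coordA, Matrix.cons_val_zero,
        Matrix.cons_val_one, Matrix.cons_val, sub_zero] at b1 b2 b3 b4 b5 b6
      exact ⟨⟨sub_eq_zero.1 b1, sub_eq_zero.1 b2⟩, ⟨sub_eq_zero.1 b3, sub_eq_zero.1 b4⟩,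
        sub_eq_zero.1 b5, sub_eq_zero.1 b6⟩

/-- numerators of the coordinates of the points of the curve as functions of the parameter -/
noncomputable def pN : Ix → Polynomial F
  | none => Polynomial.C (1 / 4) * (Polynomial.X ^ 2 + 1) ^ 2
  | some (i, j) => ![![Polynomial.C 3, Polynomial.C 5, 1],
      ![Polynomial.C (3 / 4) * (Polynomial.X ^ 2 + 1) ^ 2,
        Polynomial.C (5 / 8) * (Polynomial.X ^ 2 + 1) ^ 3, 1],
      ![Polynomial.C (3 / 4) * (Polynomial.X ^ 2 - 1) ^ 2,
        Polynomial.C (5 / 8) * (Polynomial.X ^ 2 - 1) ^ 3, 1]] i j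

/-- exponents of the denominators -/
def pK : Ix → ℕ
  | none => 2
  | some (i, j) => ![![0, 0, 0], ![2, 3, 0], ![2, 3, 0]] i j

lemma curveX_param {x : A F} (hx : x ∈ curveX) : ∃ m : F, m ≠ 0 ∧
    coordA x = fun i => (pN i).eval m / m ^ pK i := by
  obtain ⟨t, ht, P1, P2, P3⟩ := x
  obtain ⟨⟨g1, e1⟩, ⟨y2, g2, e2⟩, ⟨y3, g3, e3⟩⟩ := hx
  simp only at e1 e2 e3
  have t0 : t ≠ 0 := ht.1
  have t1 : t - 1 ≠ 0 := sub_ne_zero.2 ht.2
  have q2 : y2 ^ 2 = 25 * t ^ 3 := by
    have := ((ns_iff _ _ _).1 g2).1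
    linear_combination this
  have q3 : y3 ^ 2 = 25 * (t - 1) ^ 3 := by
    have := ((ns_iff _ _ _).1 g3).1
    linear_combination this
  have f5 : (5 : F) ≠ 0 := by norm_num
  obtain ⟨a, ha⟩ : ∃ a, a = y2 / (5 * t) := ⟨_, rfl⟩
  obtain ⟨b, hb⟩ : ∃ b, b = y3 / (5 * (t - 1)) := ⟨_, rfl⟩
  have h1 : a ^ 2 = t := by
    rw [ha, div_pow, q2]
    field_simp
    norm_num
  have h2 : b ^ 2 = t - 1 := by
    rw [hb, div_pow, q3]
    field_simp
    norm_num
  have h3 : y2 = 5 * t * a := by
    rw [ha]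
    field_simp
  have h4 : y3 = 5 * (t - 1) * b := by
    rw [hb]
    field_simp
  have hm : (a + b) * (a - b) = 1 := by linear_combination h1 - h2
  have hm0 : a + b ≠ 0 := left_ne_zero_of_mul_eq_one hm
  have hab : a - b = 1 / (a + b) := by
    field_simp
    linear_combination hm
  have hA : a = ((a + b) ^ 2 + 1) / (2 * (a + b)) := by
    rw [eq_div_iff (mul_ne_zero two_ne_zero hm0)]
    linear_combination hm
  have hB : b = ((a + b) ^ 2 - 1) / (2 * (a + b)) := by
    rw [eq_div_iff (mul_ne_zero two_ne_zero hm0)]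
    linear_combination -hm
  refine ⟨a + b, hm0, ?_⟩
  set m := a + b with hmdef
  funext ix
  rcases ix with _ | ⟨i, j⟩
  · simp only [coordA, pN, pK, Polynomial.eval_mul, Polynomial.eval_C, Polynomial.eval_pow,
      Polynomial.eval_add, Polynomial.eval_X, Polynomial.eval_one]
    rw [← h1, hA]
    field_simp
    norm_num
  · have k1 : ∀ j, coord P1 j = (![3, 5, 1] : Fin 3 → F) j := by
      intro j; rw [e1]; rfl
    have k2 : ∀ j, coord P2 j = (![3 * t, y2, 1] : Fin 3 → F) j := by
      intro j; rw [e2]; rfl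
    have k3 : ∀ j, coord P3 j = (![3 * (t - 1), y3, 1] : Fin 3 → F) j := by
      intro j; rw [e3]; rfl
    fin_cases i
    · change coord P1 j = _
      rw [k1]
      fin_cases j <;> simp [pN, pK]
    · change coord P2 j = _
      rw [k2]
      fin_cases j
      · simp [pN, pK]
        rw [← h1, hA]
        field_simp
        norm_num
      · simp [pN, pK]
        rw [h3, ← h1, hA]
        field_simp
        norm_num
      · simp [pN, pK]
    · change coord P3 j = _
      rw [k3]
      fin_cases j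
      · simp [pN, pK]
        rw [← h2, hB]
        field_simp
        norm_num
      · simp [pN, pK]
        rw [h4, ← h2, hB]
        field_simp
        norm_num
      · simp [pN, pK]

end Pool.Agent.Y804.PK
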