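import Pool.Agent.Y804.PK.Fin2

/-! The counterexample: irreducibility, and closed subgroup schemes containing the curve. -/

set_option autoImplicit false

namespace Pool.Agent.Y804.PK

open MvPolynomial WeierstrassCurve.Affine

variable {F : Type} [Field F] [CharZero F]

lemma curveX_dich {Z : Set (A F)} (hZ : IsClosed Z) :
    curveX ⊆ Z ∨ (curveX ∩ Z).Finite := by
  obtain ⟨I, hI, rfl⟩ := (isClosed_iff' Z).1 hZ
  by_cases hi : (curveX ∩ {a : A F | ∀ G ∈ I, eval (coordA a) G = 0}).Finite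
  · exact Or.inr hi
  left
  intro x hx G hG
  obtain ⟨N, g, hg⟩ := evalRat pN pK G
  have hM : {m : F | m ≠ 0 ∧ ∃ z ∈ curveX ∩ {a : A F | ∀ G ∈ I, eval (coordA a) G = 0},
      coordA z = fun i => (pN i).eval m / m ^ pK i}.Infinite := by
    intro hfin
    apply hi
    have key : ∀ z ∈ curveX ∩ {a : A F | ∀ G ∈ I, eval (coordA a) G = 0}, ∃ m ∈
        {m : F | m ≠ 0 ∧ ∃ z ∈ curveX ∩ {a : A F | ∀ G ∈ I, eval (coordA a) G = 0},
          coordA z = fun i => (pN i).eval m / m ^ pK i},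
        coordA z = fun i => (pN i).eval m / m ^ pK i := by
      intro z hz
      obtain ⟨m, hm, e⟩ := curveX_param hz.1
      exact ⟨m, ⟨hm, z, hz, e⟩, e⟩
    choose! φ h1 h2 using key
    refine Set.Finite.of_finite_image (f := φ) (hfin.subset ?_) ?_
    · rintro _ ⟨z, hz, rfl⟩
      exact h1 z hz
    · intro z hz z' hz' h
      apply coordA_inj
      rw [h2 z hz, h2 z' hz', h]
  have hg0 : g = 0 := by
    apply Polynomial.eq_zero_of_infinite_isRoot
    refine hM.mono ?_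
    rintro m ⟨hm, z, hz, e⟩
    have := hz.2 G hG
    rw [e] at this
    simp only [Set.mem_setOf_eq, Polynomial.IsRoot]
    rw [hg m hm, this, mul_zero]
  obtain ⟨m, hm, e⟩ := curveX_param hx
  have h := hg m hm
  rw [hg0, Polynomial.eval_zero] at h
  rw [e]
  rcases mul_eq_zero.1 h.symm with h | h
  · exact absurd h (pow_ne_zero _ hm)
  · exact h

variable [DecidableEq F] [IsAlgClosed F]

/-- the points `(P, ±P, ±P)` -/
lemma mem_curveX {t : F} (ht : t ≠ 0 ∧ t ≠ 1) : ∃ (a b : F) (ha : a ≠ 0) (hb : b ≠ 0)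
    (h1 : a ^ 2 = t) (h2 : b ^ 2 = t - 1),
    (incl t ht (P₀, scale ha (hB1 h1) P₀, scale hb (hB2 h2) P₀) ∈ curveX) ∧
    (incl t ht (P₀, -scale ha (hB1 h1) P₀, scale hb (hB2 h2) P₀) ∈ curveX) ∧
    (incl t ht (P₀, scale ha (hB1 h1) P₀, -scale hb (hB2 h2) P₀) ∈ curveX) := by
  obtain ⟨a, h1⟩ := IsAlgClosed.exists_pow_nat_eq t (n := 2) (by norm_num)
  obtain ⟨b, h2⟩ := IsAlgClosed.exists_pow_nat_eq (t - 1) (n := 2) (by norm_num)
  have ha : a ≠ 0 := by
    rintro rfl
    exact ht.1 (by rw [← h1]; ring)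
  have hb : b ≠ 0 := by
    rintro rfl
    apply sub_ne_zero.2 ht.2
    rw [← h2]; ring
  refine ⟨a, b, ha, hb, h1, h2, ?_⟩
  have k1 : ∃ y h, scale ha (hB1 h1) P₀ = .some (3 * t) y h := by
    refine ⟨a ^ 3 * 5, ?_, ?_⟩
    · rw [show 3 * t = a ^ 2 * 3 by rw [h1]; ring]
      exact ns_scale ha (hB1 h1) P_ns
    · exact point_ext _ _ (by rw [h1]; ring) rfl
  have k2 : ∃ y h, scale hb (hB2 h2) P₀ = .some (3 * (t - 1)) y h := by
    refine ⟨b ^ 3 * 5, ?_, ?_⟩
    · rw [show 3 * (t - 1) = b ^ 2 * 3 by rw [h2]; ring]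
      exact ns_scale hb (hB2 h2) P_ns
    · exact point_ext _ _ (by rw [h2]; ring) rfl
  have k1' : ∃ y h, -scale ha (hB1 h1) P₀ = .some (3 * t) y h := by
    obtain ⟨y, h, e⟩ := k1
    rw [e, Point.neg_some]
    exact ⟨_, _, rfl⟩
  have k2' : ∃ y h, -scale hb (hB2 h2) P₀ = .some (3 * (t - 1)) y h := by
    obtain ⟨y, h, e⟩ := k2
    rw [e, Point.neg_some]
    exact ⟨_, _, rfl⟩
  exact ⟨⟨⟨P_ns, rfl⟩, k1, k2⟩, ⟨⟨P_ns, rfl⟩, k1', k2⟩, ⟨⟨P_ns, rfl⟩, k1, k2'⟩⟩

lemma curveX_infinite : (curveX : Set (A F)).Infinite := by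
  have h : ∀ t : F, ∃ x : A F, (t ≠ 0 ∧ t ≠ 1) → (x ∈ curveX ∧ x.t = t) := by
    intro t
    by_cases ht : t ≠ 0 ∧ t ≠ 1
    · obtain ⟨a, b, ha, hb, h1, h2, hm, _⟩ := mem_curveX ht
      exact ⟨_, fun _ => ⟨hm, rfl⟩⟩
    · exact ⟨incl 2 ⟨by norm_num, by norm_num⟩ (0, 0, 0), fun h => absurd h ht⟩
  choose f hf using h
  have hi : (({0, 1} : Set F)ᶜ).Infinite := (Set.toFinite ({0, 1} : Set F)).infinite_compl
  have hinj : Set.InjOn f (({0, 1} : Set F)ᶜ) := by
    intro s hs s' hs' he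
    have c1 : s ≠ 0 ∧ s ≠ 1 := by simpa using hs
    have c2 : s' ≠ 0 ∧ s' ≠ 1 := by simpa using hs'
    rw [← (hf s c1).2, ← (hf s' c2).2, he]
  refine (hi.image hinj).mono ?_
  rintro _ ⟨s, hs, rfl⟩
  have c1 : s ≠ 0 ∧ s ≠ 1 := by simpa using hs
  exact (hf s c1).1

section grp

variable {t : F} (ht : t ≠ 0 ∧ t ≠ 1)

/-- the subgroup of points `Q` of one factor with `f Q` in a closed set with subgroup fibres is
everything if it contains the multiples of a point of infinite order -/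
lemma all_of_inf {B : F} (f : (W F B).toAffine.Point →+ Fib F t) {c : Ix → F × F × F}
    (hf : ∀ x y h, coordA (incl t ht (f (.some x y h))) = lin c x y) {H : Set (A F)}
    (hH : IsClosed H) (L : AddSubgroup (Fib F t)) (hL : incl t ht ⁻¹' H = L)
    (hi : {Q | f Q ∈ L}.Infinite) (Q : (W F B).toAffine.Point) : f Q ∈ L := by
  have hi' : {Q | incl t ht (f Q) ∈ H}.Infinite := by
    convert hi using 3
    rw [← SetLike.mem_coe, ← hL]
    rfl
  obtain ⟨I, hI, rfl, hall⟩ := all_aff (f := fun Q => incl t ht (f Q)) hf hH hi'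
  rcases Q with _ | ⟨x, y, h⟩
  · change f 0 ∈ L
    rw [map_zero]
    exact L.zero_mem
  · rw [← SetLike.mem_coe, ← hL]
    intro G hG
    rw [hf]
    exact hall G hG x y ((ns_iff _ _ _).1 h).1

/-- coefficients of the coordinates on one factor -/
def cE (t : F) (l : Fin 3) : Ix → F × F × F
  | none => (t, 0, 0)
  | some (i, j) => if i = l then ![(0, 1, 0), (0, 0, 1), (1, 0, 0)] j
      else ![(0, 0, 0), (1, 0, 0), (0, 0, 0)] j

lemma group_all {H : Set (A F)} (hG : IsGroupSubscheme H) (hX : curveX ⊆ H) : H = Set.univ := by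
  obtain ⟨hH, hg⟩ := hG
  rw [Set.eq_univ_iff_forall]
  rintro ⟨t, ht, Q1, Q2, Q3⟩
  obtain ⟨L, hL⟩ := hg t ht
  obtain ⟨a, b, ha, hb, h1, h2, m1, m2, m3⟩ := mem_curveX ht
  have g1 : ((P₀, scale ha (hB1 h1) P₀, scale hb (hB2 h2) P₀) : Fib F t) ∈ L := by
    rw [← SetLike.mem_coe, ← hL]; exact hX m1
  have g2 : ((P₀, -scale ha (hB1 h1) P₀, scale hb (hB2 h2) P₀) : Fib F t) ∈ L := by
    rw [← SetLike.mem_coe, ← hL]; exact hX m2
  have g3 : ((P₀, scale ha (hB1 h1) P₀, -scale hb (hB2 h2) P₀) : Fib F t) ∈ L := by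
    rw [← SetLike.mem_coe, ← hL]; exact hX m3
  have e2 : ((0, 2 • scale ha (hB1 h1) P₀, 0) : Fib F t) ∈ L := by
    have := L.sub_mem g1 g2
    convert this using 1
    simp [two_nsmul]
  have e3 : ((0, 0, 2 • scale hb (hB2 h2) P₀) : Fib F t) ∈ L := by
    have := L.sub_mem g1 g3
    convert this using 1
    simp [two_nsmul]
  have e1 : ((2 • P₀, 0, 0) : Fib F t) ∈ L := by
    have := L.sub_mem (L.sub_mem (L.add_mem g1 g1) e2) e3
    convert this using 1
    simp [two_nsmul]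
  have inj := pow_inj (F := F)
  have c1 : ∀ Q, ((Q, 0, 0) : Fib F t) ∈ L := by
    refine all_of_inf ht (AddMonoidHom.inl _ _) (c := cE t 0) ?_ hH L hL ?_
    · intro x y h
      funext ix
      rcases ix with _ | ⟨i, j⟩
      · simp [coordA, incl, lin, cE]
      · fin_cases i <;> fin_cases j <;> simp [coordA, incl, lin, cE, coord] <;> rfl
    · refine (Set.infinite_range_of_injective inj).mono ?_
      rintro _ ⟨n, rfl⟩
      have := L.nsmul_mem e1 (2 ^ n)
      convert this using 1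
      simp [pow_succ, mul_smul]
      exact Iff.rfl
  have c2 : ∀ Q, ((0, Q, 0) : Fib F t) ∈ L := by
    refine all_of_inf ht ((AddMonoidHom.inr _ _).comp (AddMonoidHom.inl _ _)) (c := cE t 1)
      ?_ hH L hL ?_
    · intro x y h
      funext ix
      rcases ix with _ | ⟨i, j⟩
      · simp [coordA, incl, lin, cE]
      · fin_cases i <;> fin_cases j <;> simp [coordA, incl, lin, cE, coord] <;> rfl
    · refine (Set.infinite_range_of_injective ((scale_inj ha (hB1 h1)).comp inj)).mono ?_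
      rintro _ ⟨n, rfl⟩
      have := L.nsmul_mem e2 (2 ^ n)
      convert this using 1
      simp [pow_succ, mul_smul, map_nsmul]
  have c3 : ∀ Q, ((0, 0, Q) : Fib F t) ∈ L := by
    refine all_of_inf ht ((AddMonoidHom.inr _ _).comp (AddMonoidHom.inr _ _)) (c := cE t 2)
      ?_ hH L hL ?_
    · intro x y h
      funext ix
      rcases ix with _ | ⟨i, j⟩
      · simp [coordA, incl, lin, cE]
      · fin_cases i <;> fin_cases j <;> simp [coordA, incl, lin, cE, coord] <;> rfl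
    · refine (Set.infinite_range_of_injective ((scale_inj hb (hB2 h2)).comp inj)).mono ?_
      rintro _ ⟨n, rfl⟩
      have := L.nsmul_mem e3 (2 ^ n)
      convert this using 1
      simp [pow_succ, mul_smul]
  have hm : ((Q1, Q2, Q3) : Fib F t) ∈ L := by
    have := L.add_mem (L.add_mem (c1 Q1) (c2 Q2)) (c3 Q3)
    convert this using 1
    simp
  rw [← SetLike.mem_coe, ← hL] at hm
  exact hm

end grp

theorem main : IsClosed (curveX : Set (A F)) ∧ IsIrreducible (curveX : Set (A F)) ∧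
    topologicalKrullDim (curveX : Set (A F)) = 1 ∧
    (∀ H : Set (A F), IsGroupSubscheme H → curveX ⊆ H → H = Set.univ) ∧
    (curveX : Set (A F)) ⊆ Atyp 1 :=
  ⟨curveX_closed, (krull_one curveX_infinite fun _ hZ => curveX_dich hZ).1,
    (krull_one curveX_infinite fun _ hZ => curveX_dich hZ).2,
    fun _ hG hX => group_all hG hX, curveX_atyp⟩

end Pool.Agent.Y804.PK
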