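import Pool.Agent.Y804.PK.Scal

/-! The point `(3, 5)` on `y² = x³ - 2` has infinite order. -/

set_option autoImplicit false

namespace Pool.Agent.Y804.PK

open WeierstrassCurve WeierstrassCurve.Affine

lemma val_step {ξ : ℚ} {k : ℤ} (hk : 1 ≤ k) (h0 : ξ ≠ 0) (h : padicValRat 2 ξ = -2 * k) :
    ξ ^ 3 - 2 ≠ 0 ∧ (ξ ^ 4 + 16 * ξ) / (4 * (ξ ^ 3 - 2)) ≠ 0 ∧
    padicValRat 2 ((ξ ^ 4 + 16 * ξ) / (4 * (ξ ^ 3 - 2))) = -2 * (k + 1) := by
  haveI : Fact (Nat.Prime 2) := ⟨Nat.prime_two⟩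
  have v2 : padicValRat 2 (2 : ℚ) = 1 := by
    simpa using padicValRat.self (p := 2) (by norm_num)
  have v4 : padicValRat 2 (4 : ℚ) = 2 := by
    rw [show (4 : ℚ) = 2 ^ 2 by norm_num, padicValRat.pow, v2]; norm_num
  have v16 : padicValRat 2 (16 : ℚ) = 4 := by
    rw [show (16 : ℚ) = 2 ^ 4 by norm_num, padicValRat.pow, v2]; norm_num
  have vn2 : padicValRat 2 (-2 : ℚ) = 1 := by rw [padicValRat.neg, v2]
  have w3 : padicValRat 2 (ξ ^ 3) = -6 * k := by
    rw [padicValRat.pow, h]; push_cast; ring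
  have w4 : padicValRat 2 (ξ ^ 4) = -8 * k := by
    rw [padicValRat.pow, h]; push_cast; ring
  have w16 : padicValRat 2 (16 * ξ) = 4 - 2 * k := by
    rw [padicValRat.mul (by norm_num) h0, v16, h]; ring
  have n1 : ξ ^ 3 - 2 ≠ 0 := by
    intro hc
    have : ξ ^ 3 = 2 := by linarith
    rw [this, v2] at w3
    omega
  have n2 : ξ ^ 4 + 16 * ξ ≠ 0 := by
    intro hc
    have : ξ ^ 4 = -(16 * ξ) := by linarith
    rw [this, padicValRat.neg, w16] at w4
    omega
  have a1 : padicValRat 2 (ξ ^ 3 - 2) = -6 * k := by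
    rw [sub_eq_add_neg] at n1 ⊢
    rw [padicValRat.add_eq_of_lt n1 (pow_ne_zero _ h0) (by norm_num) (by rw [w3, vn2]; omega), w3]
  have a2 : padicValRat 2 (ξ ^ 4 + 16 * ξ) = -8 * k := by
    rw [padicValRat.add_eq_of_lt n2 (pow_ne_zero _ h0) (mul_ne_zero (by norm_num) h0)
      (by rw [w4, w16]; omega), w4]
  refine ⟨n1, div_ne_zero n2 (mul_ne_zero (by norm_num) n1), ?_⟩
  rw [padicValRat.div n2 (mul_ne_zero (by norm_num) n1), a2,
    padicValRat.mul (by norm_num) n1, v4, a1]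
  ring

variable {F : Type} [Field F] [DecidableEq F]

lemma dbl [CharZero F] {x y : F} (h : (W F (-2)).toAffine.Nonsingular x y) (hy : y ≠ 0) :
    ∃ y' h', (Point.some x y h : (W F (-2)).toAffine.Point) + Point.some x y h =
      Point.some ((x ^ 4 + 16 * x) / (4 * (x ^ 3 - 2))) y' h' := by
  have hne : y ≠ (W F (-2)).toAffine.negY x y := by
    rw [negY_W]
    intro hc
    apply hy
    have : (2 : F) * y = 0 := by linear_combination hc
    rcases mul_eq_zero.1 this with h | h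
    · norm_num at h
    · exact h
  have he := ((ns_iff _ _ _).1 h).1
  rw [Point.add_self_of_Y_ne hne]
  have hx3 : x ^ 3 - 2 ≠ 0 := by
    intro hc
    apply hy
    have : y ^ 2 = 0 := by rw [he]; linear_combination hc
    exact pow_eq_zero_iff (two_ne_zero) |>.1 this
  have key : (W F (-2)).toAffine.addX x x ((W F (-2)).toAffine.slope x x y y) =
      (x ^ 4 + 16 * x) / (4 * (x ^ 3 - 2)) := by
    rw [Affine.slope_of_Y_ne rfl hne, negY_W]
    simp only [Affine.addX, W]
    have h2 : y - -y ≠ 0 := by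
      have : y - -y = 2 * y := by ring
      rw [this]
      exact mul_ne_zero (by norm_num) hy
    have e1 : ((3 * x ^ 2 + 2 * 0 * x + 0 - 0 * y) / (y - -y)) ^ 2 = 9 * x ^ 4 / (4 * (x ^ 3 - 2)) := by
      rw [div_pow, div_eq_div_iff (pow_ne_zero _ h2) (mul_ne_zero (by norm_num) hx3)]
      linear_combination -36 * x ^ 4 * he
    rw [e1]
    have h4 : (4 * (x ^ 3 - 2)) ≠ 0 := mul_ne_zero (by norm_num) hx3
    rw [zero_mul, add_zero, sub_zero, eq_div_iff h4, sub_mul, sub_mul, div_mul_cancel₀ _ h4]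
    ring
  have h' : (W F (-2)).toAffine.Nonsingular ((x ^ 4 + 16 * x) / (4 * (x ^ 3 - 2)))
      ((W F (-2)).toAffine.addY x x y ((W F (-2)).toAffine.slope x x y y)) := by
    rw [← key]
    exact nonsingular_add h h fun hxy => hne hxy.right
  exact ⟨_, h', point_ext _ _ key rfl⟩

lemma P_ns [CharZero F] : (W F (-2)).toAffine.Nonsingular 3 5 :=
  ns_of_eq (by norm_num) (by norm_num)

/-- the point `(3, 5)` -/
def P₀ [CharZero F] : (W F (-2)).toAffine.Point := Point.some 3 5 P_ns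

lemma pow_P [CharZero F] (n : ℕ) : ∃ ξ : ℚ, ξ ≠ 0 ∧ padicValRat 2 ξ = -2 * ((n : ℤ) + 1) ∧
    ∃ y h, (2 ^ (n + 1)) • (P₀ : (W F (-2)).toAffine.Point) = Point.some (ξ : F) y h := by
  haveI : Fact (Nat.Prime 2) := ⟨Nat.prime_two⟩
  induction n with
  | zero =>
    refine ⟨129 / 100, by norm_num, ?_, ?_⟩
    · rw [padicValRat.div (by norm_num) (by norm_num)]
      have h1 : padicValRat 2 (129 : ℚ) = 0 := by
        have : padicValRat 2 ((129 : ℕ) : ℚ) = 0 := by
          rw [padicValRat.of_nat, padicValNat.eq_zero_of_not_dvd (by norm_num)]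
          rfl
        simpa using this
      have h2 : padicValRat 2 (100 : ℚ) = 2 := by
        have e : (100 : ℚ) = 2 ^ 2 * 25 := by norm_num
        have v2 : padicValRat 2 (2 : ℚ) = 1 := by
          simpa using padicValRat.self (p := 2) (by norm_num)
        have h25 : padicValRat 2 (25 : ℚ) = 0 := by
          have : padicValRat 2 ((25 : ℕ) : ℚ) = 0 := by
            rw [padicValRat.of_nat, padicValNat.eq_zero_of_not_dvd (by norm_num)]
            rfl
          simpa using this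
        have h4 : padicValRat 2 ((2 : ℚ) ^ 2) = 2 := by
          rw [padicValRat.pow, v2]
          norm_num
        rw [e, padicValRat.mul (by norm_num) (by norm_num), h4, h25]
        norm_num
      rw [h1, h2]
      norm_num
    · obtain ⟨y', h', e⟩ := dbl (F := F) P_ns (by norm_num)
      have hx : ((3 : F) ^ 4 + 16 * 3) / (4 * (3 ^ 3 - 2)) = ((129 / 100 : ℚ) : F) := by
        push_cast
        norm_num
      have h'' : (W F (-2)).toAffine.Nonsingular ((129 / 100 : ℚ) : F) y' := by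
        rw [← hx]; exact h'
      refine ⟨y', h'', ?_⟩
      have e2 : (2 ^ (0 + 1)) • (P₀ : (W F (-2)).toAffine.Point) = P₀ + P₀ := by
        rw [zero_add, pow_one, two_nsmul]
      rw [e2]
      unfold P₀
      rw [e]
      exact point_ext _ _ hx rfl
  | succ n ih =>
    obtain ⟨ξ, h0, hv, y, h, e⟩ := ih
    obtain ⟨n1, n2, hv'⟩ := val_step (k := (n : ℤ) + 1) (by omega) h0 hv
    have hy : y ≠ 0 := by
      rintro rfl
      have he := ((ns_iff _ _ _).1 h).1
      apply n1
      have : ((ξ ^ 3 - 2 : ℚ) : F) = 0 := by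
        push_cast
        linear_combination -he
      exact_mod_cast this
    obtain ⟨y', h', e'⟩ := dbl h hy
    have hx : ((ξ : F) ^ 4 + 16 * ξ) / (4 * ((ξ : F) ^ 3 - 2)) =
        (((ξ ^ 4 + 16 * ξ) / (4 * (ξ ^ 3 - 2)) : ℚ) : F) := by
      push_cast
      rfl
    have h'' : (W F (-2)).toAffine.Nonsingular
        ((((ξ ^ 4 + 16 * ξ) / (4 * (ξ ^ 3 - 2)) : ℚ) : F)) y' := by
      rw [← hx]; exact h'
    refine ⟨_, n2, ?_, y', h'', ?_⟩
    · rw [hv']; push_cast; ring
    · rw [pow_succ, mul_comm, mul_smul, two_nsmul, e, e']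
      exact point_ext _ _ hx rfl

lemma pow_inj [CharZero F] :
    Function.Injective fun n : ℕ => (2 ^ (n + 1)) • (P₀ : (W F (-2)).toAffine.Point) := by
  intro m n hmn
  obtain ⟨ξ, h0, hv, y, h, e⟩ := pow_P (F := F) m
  obtain ⟨ξ', h0', hv', y', h', e'⟩ := pow_P (F := F) n
  simp only at hmn
  rw [e, e'] at hmn
  have := (Point.some.injEq _ _ _ _ _ _).mp hmn
  have hq : ξ = ξ' := by exact_mod_cast this.1
  rw [hq, hv'] at hv
  omega

end Pool.Agent.Y804.PK
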