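import Pool.Agent.Y804.PK.Top
import Pool.Agent.Y804.PK.Ord

/-! The counterexample. -/

set_option autoImplicit false

namespace Pool.Agent.Y804.PK

open MvPolynomial WeierstrassCurve.Affine

variable {F : Type} [Field F]

/-- a closed set containing infinitely many points of a family of points with linear coordinates
contains all affine ones -/
lemma all_aff {B : F} {f : (W F B).toAffine.Point → A F} {c : Ix → F × F × F}
    (hf : ∀ x y h, coordA (f (.some x y h)) = lin c x y) {Z : Set (A F)} (hZ : IsClosed Z)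
    (hi : {Q | f Q ∈ Z}.Infinite) :
    ∃ I : Set (MvPolynomial Ix F), (∀ G ∈ I, Multihom G) ∧
      Z = {a | ∀ G ∈ I, eval (coordA a) G = 0} ∧
      ∀ G ∈ I, ∀ x y : F, y ^ 2 = x ^ 3 + B → eval (lin c x y) G = 0 := by
  obtain ⟨I, hI, rfl⟩ := (isClosed_iff' Z).1 hZ
  refine ⟨I, hI, rfl, fun G hG x y hxy => ?_⟩
  obtain ⟨g0, g1, hg⟩ := evalAff B c G
  set S : Set (F × F) := {p | ∃ h, f (.some p.1 p.2 h) ∈ {a : A F | ∀ G ∈ I, eval (coordA a) G = 0}}
    with hSdef
  have hS : S.Infinite := by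
    intro hfin
    apply hi
    have hsub : {Q | f Q ∈ {a : A F | ∀ G ∈ I, eval (coordA a) G = 0}} ⊆
        insert .zero ((fun Q : (W F B).toAffine.Point => (coord Q 0, coord Q 1)) ⁻¹' S ∩
          {Q | Q ≠ .zero}) := by
      rintro (_ | ⟨x, y, h⟩) hQ
      · exact Or.inl rfl
      · right
        refine ⟨⟨h, ?_⟩, fun hc => by cases hc⟩
        exact hQ
    refine Set.Finite.subset (Set.Finite.insert _ ?_) hsub
    refine Set.Finite.of_finite_image (f := fun Q : (W F B).toAffine.Point =>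
      (coord Q 0, coord Q 1)) (hfin.subset ?_) ?_
    · rintro _ ⟨Q, hQ, rfl⟩
      exact hQ.1
    · rintro (_ | ⟨x, y, h⟩) h1 (_ | ⟨x', y', h'⟩) h2 he
      · rfl
      · exact absurd rfl h1.2
      · exact absurd rfl h2.2
      · simp only [coord, Prod.mk.injEq] at he
        have e1 : x = x' := he.1
        have e2 : y = y' := he.2
        subst e1 e2
        rfl
  have hv := vanishAff (B := B) (g0 := g0) (g1 := g1) hS ?_ ?_
  · rw [hg x y hxy, hv.1, hv.2]
    simp
  · rintro ⟨x, y⟩ ⟨h, _⟩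
    exact ((ns_iff _ _ _).1 h).1
  · rintro ⟨x, y⟩ ⟨h, hh⟩
    have e := hh G hG
    rw [hf] at e
    rw [← hg x y ((ns_iff _ _ _).1 h).1]
    exact e

variable [DecidableEq F]

section fib

variable {t : F} (ht : t ≠ 0 ∧ t ≠ 1) {a b : F} (ha : a ≠ 0) (hb : b ≠ 0) (h1 : a ^ 2 = t)
  (h2 : b ^ 2 = t - 1)

include h1 in
lemma hB1 : -2 * t ^ 3 = a ^ 6 * (-2) := by rw [← h1]; ring

include h2 in
lemma hB2 : -2 * (t - 1) ^ 3 = b ^ 6 * (-2) := by rw [← h2]; ring

/-- the homomorphism `Q ↦ (Q, ψ_a Q, ψ_b Q)` -/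
def diag : (W F (-2)).toAffine.Point →+ Fib F t :=
  (AddMonoidHom.id _).prod ((scale ha (hB1 h1)).prod (scale hb (hB2 h2)))

/-- coefficients of the affine coordinates on the diagonal -/
def cA (t a b : F) : Ix → F × F × F
  | none => (t, 0, 0)
  | some (i, j) => ![(0, ![1, a ^ 2, b ^ 2] i, 0), (0, 0, ![1, a ^ 3, b ^ 3] i), (1, 0, 0)] j

/-- coefficients of the coordinates near infinity -/
def cI (t a b : F) : Ix → F × F × F
  | none => (t, 0, 0)
  | some (i, j) => ![(0, ![1, a ^ 2, b ^ 2] i, 0), (![1, a ^ 3, b ^ 3] i, 0, 0), (0, 0, 1)] j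

lemma coord_diag (x y : F) (h : (W F (-2)).toAffine.Nonsingular x y) :
    coordA (incl t ht (diag ha hb h1 h2 (.some x y h))) = lin (cA t a b) x y := by
  funext ix
  rcases ix with _ | ⟨i, j⟩
  · simp [coordA, incl, lin, cA]
  · fin_cases i <;> fin_cases j <;>
      simp [coordA, incl, lin, cA, diag, coord, scale_some]

lemma coord_diag_zero :
    (fun i => scl ![1, a ^ 3, b ^ 3] i * coordA (incl t ht (diag ha hb h1 h2 .zero)) i) =
      lin (cI t a b) 0 0 := by
  funext ix
  rcases ix with _ | ⟨i, j⟩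
  · simp [coordA, incl, lin, cI, scl_none]
  · fin_cases i <;> fin_cases j <;>
      simp [coordA, incl, lin, cI, diag, coord, scale_zero', scl_some]

lemma lin_scl {z w : F} (hw : w ≠ 0) :
    lin (cA t a b) (z / w) (1 / w) = fun i => scl (fun _ => 1 / w) i * lin (cI t a b) z w i := by
  funext ix
  rcases ix with _ | ⟨i, j⟩
  · simp [lin, cI, cA, scl_none]
  · fin_cases i <;> fin_cases j <;>
      simp [lin, cI, cA, scl_some] <;> field_simp

lemma diag_closed [CharZero F] [IsAlgClosed F] {Z : Set (A F)} (hZ : IsClosed Z) :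
    (∀ Q, incl t ht (diag ha hb h1 h2 Q) ∈ Z) ∨
      {Q | incl t ht (diag ha hb h1 h2 Q) ∈ Z}.Finite := by
  by_cases hi : {Q | incl t ht (diag ha hb h1 h2 Q) ∈ Z}.Finite
  · exact Or.inr hi
  left
  obtain ⟨I, hI, rfl, hall⟩ := all_aff (f := fun Q => incl t ht (diag ha hb h1 h2 Q))
    (c := cA t a b) (fun x y h => coord_diag ht ha hb h1 h2 x y h) hZ hi
  rintro (_ | ⟨x, y, h⟩) G hG
  · obtain ⟨m, hm⟩ := hI G hG
    have h0 : eval (lin (cI t a b) 0 0) G = 0 := by
      apply vanishInf (-2)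
      intro z w hw hz
      have e := hall G hG (z / w) (1 / w) (by
        field_simp
        linear_combination -hz)
      rw [lin_scl hw, eval_scl hm] at e
      rcases mul_eq_zero.1 e with e | e
      · exact absurd e (Finset.prod_ne_zero_iff.2 fun k _ => pow_ne_zero _ (one_div_ne_zero hw))
      · exact e
    rw [← coord_diag_zero ht ha hb h1 h2, eval_scl hm] at h0
    rcases mul_eq_zero.1 h0 with e | e
    · refine absurd e (Finset.prod_ne_zero_iff.2 fun k _ => pow_ne_zero _ ?_)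
      fin_cases k
      · exact one_ne_zero
      · exact pow_ne_zero _ ha
      · exact pow_ne_zero _ hb
    · exact e
  · rw [coord_diag]
    exact hall G hG x y ((ns_iff _ _ _).1 h).1

end fib

end Pool.Agent.Y804.PK
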