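import Pool.Agent.Y804.PK.Scal

/-! Polynomial functions on the curve `y² = x³ + B`, near infinity and on a rational curve. -/

set_option autoImplicit false

namespace Pool.Agent.Y804.PK

open MvPolynomial

variable {F : Type} [Field F]

/-- a linear form in two variables with constant term -/
def lin (c : Ix → F × F × F) (x y : F) (i : Ix) : F := (c i).1 + (c i).2.1 * x + (c i).2.2 * y

lemma evalAff (B : F) (c : Ix → F × F × F) (G : MvPolynomial Ix F) :
    ∃ g0 g1 : Polynomial F, ∀ x y : F, y ^ 2 = x ^ 3 + B →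
      eval (lin c x y) G = g0.eval x + g1.eval x * y := by
  induction G using MvPolynomial.induction_on with
  | C a => exact ⟨Polynomial.C a, 0, fun x y _ => by simp⟩
  | add p q hp hq =>
    obtain ⟨a0, a1, ha⟩ := hp
    obtain ⟨b0, b1, hb⟩ := hq
    refine ⟨a0 + b0, a1 + b1, fun x y h => ?_⟩
    rw [map_add, ha x y h, hb x y h]
    simp only [Polynomial.eval_add]
    ring
  | mul_X p i hp =>
    obtain ⟨a0, a1, ha⟩ := hp
    refine ⟨a0 * (Polynomial.C (c i).1 + Polynomial.C (c i).2.1 * Polynomial.X) +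
        Polynomial.C (c i).2.2 * a1 * (Polynomial.X ^ 3 + Polynomial.C B),
      a1 * (Polynomial.C (c i).1 + Polynomial.C (c i).2.1 * Polynomial.X) +
        Polynomial.C (c i).2.2 * a0, fun x y h => ?_⟩
    rw [map_mul, ha x y h, eval_X]
    simp only [Polynomial.eval_add, Polynomial.eval_mul, Polynomial.eval_C, Polynomial.eval_X,
      Polynomial.eval_pow, lin]
    linear_combination (a1.eval x * (c i).2.2) * h

lemma fst_infinite {B : F} {S : Set (F × F)} (hS : S.Infinite)
    (hc : ∀ p ∈ S, p.2 ^ 2 = p.1 ^ 3 + B) : (Prod.fst '' S).Infinite := by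
  intro hf
  apply hS
  have : S ⊆ ⋃ x ∈ Prod.fst '' S, (fun y => (x, y)) '' {y : F | y ^ 2 = x ^ 3 + B} := by
    intro p hp
    simp only [Set.mem_iUnion]
    exact ⟨p.1, ⟨p, hp, rfl⟩, p.2, hc p hp, rfl⟩
  refine Set.Finite.subset (Set.Finite.biUnion hf fun x _ => Set.Finite.image _ ?_) this
  have h2 : (Polynomial.X ^ 2 - Polynomial.C (x ^ 3 + B)) ≠ (0 : Polynomial F) :=
    Polynomial.X_pow_sub_C_ne_zero (by norm_num) _
  refine Set.Finite.subset (Polynomial.rootSet_finite
    (Polynomial.X ^ 2 - Polynomial.C (x ^ 3 + B)) F) ?_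
  intro y hy
  rw [Polynomial.mem_rootSet]
  refine ⟨h2, ?_⟩
  have hy' : y ^ 2 = x ^ 3 + B := hy
  simp [hy']

lemma vanishAff {B : F} {g0 g1 : Polynomial F} {S : Set (F × F)} (hS : S.Infinite)
    (hc : ∀ p ∈ S, p.2 ^ 2 = p.1 ^ 3 + B) (h0 : ∀ p ∈ S, g0.eval p.1 + g1.eval p.1 * p.2 = 0) :
    g0 = 0 ∧ g1 = 0 := by
  have hf : (Prod.fst '' S).Infinite := fst_infinite hS hc
  have hN : g0 ^ 2 - g1 ^ 2 * (Polynomial.X ^ 3 + Polynomial.C B) = 0 := by
    apply Polynomial.eq_zero_of_infinite_isRoot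
    refine hf.mono ?_
    rintro _ ⟨p, hp, rfl⟩
    have e1 := hc p hp
    have e2 := h0 p hp
    simp only [Polynomial.IsRoot, Set.mem_setOf_eq, Polynomial.eval_sub, Polynomial.eval_pow,
      Polynomial.eval_mul, Polynomial.eval_add, Polynomial.eval_X, Polynomial.eval_C]
    linear_combination (g0.eval p.1 - g1.eval p.1 * p.2) * e2 + (g1.eval p.1) ^ 2 * e1
  have hmon : (Polynomial.X ^ 3 + Polynomial.C B : Polynomial F).Monic :=
    Polynomial.monic_X_pow_add_C _ (by norm_num)
  have hdeg : (Polynomial.X ^ 3 + Polynomial.C B : Polynomial F).natDegree = 3 :=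
    Polynomial.natDegree_X_pow_add_C
  have h1 : g1 = 0 := by
    by_contra hne
    have e : g0 ^ 2 = g1 ^ 2 * (Polynomial.X ^ 3 + Polynomial.C B) := sub_eq_zero.1 hN
    have e' := congrArg Polynomial.natDegree e
    rw [Polynomial.natDegree_pow, Polynomial.natDegree_mul (pow_ne_zero _ hne) hmon.ne_zero,
      Polynomial.natDegree_pow, hdeg] at e'
    omega
  subst h1
  refine ⟨?_, rfl⟩
  have : g0 ^ 2 = 0 := by simpa using hN
  exact pow_eq_zero_iff (two_ne_zero) |>.1 this

lemma evalInf (B : F) (c : Ix → F × F × F) (G : MvPolynomial Ix F) :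
    ∃ h0 h1 h2 : Polynomial F, ∀ z w : F, z ^ 3 = w - B * w ^ 3 →
      eval (lin c z w) G = h0.eval w + h1.eval w * z + h2.eval w * z ^ 2 := by
  induction G using MvPolynomial.induction_on with
  | C a => exact ⟨Polynomial.C a, 0, 0, fun x y _ => by simp⟩
  | add p q hp hq =>
    obtain ⟨a0, a1, a2, ha⟩ := hp
    obtain ⟨b0, b1, b2, hb⟩ := hq
    refine ⟨a0 + b0, a1 + b1, a2 + b2, fun x y h => ?_⟩
    rw [map_add, ha x y h, hb x y h]
    simp only [Polynomial.eval_add]
    ring
  | mul_X p i hp =>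
    obtain ⟨a0, a1, a2, ha⟩ := hp
    refine ⟨a0 * (Polynomial.C (c i).1 + Polynomial.C (c i).2.2 * Polynomial.X) +
        Polynomial.C (c i).2.1 * a2 * (Polynomial.X - Polynomial.C B * Polynomial.X ^ 3),
      a1 * (Polynomial.C (c i).1 + Polynomial.C (c i).2.2 * Polynomial.X) +
        Polynomial.C (c i).2.1 * a0,
      a2 * (Polynomial.C (c i).1 + Polynomial.C (c i).2.2 * Polynomial.X) +
        Polynomial.C (c i).2.1 * a1, fun z w h => ?_⟩
    rw [map_mul, ha z w h, eval_X]
    simp only [Polynomial.eval_add, Polynomial.eval_mul, Polynomial.eval_C, Polynomial.eval_X,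
      Polynomial.eval_pow, Polynomial.eval_sub, lin]
    linear_combination (a2.eval w * (c i).2.1) * h

lemma vanishInf [IsAlgClosed F] [CharZero F] (B : F) (c : Ix → F × F × F) (G : MvPolynomial Ix F)
    (h : ∀ z w : F, w ≠ 0 → z ^ 3 = w - B * w ^ 3 → eval (lin c z w) G = 0) :
    eval (lin c 0 0) G = 0 := by
  obtain ⟨h0, h1, h2, hh⟩ := evalInf B c G
  set κ : Polynomial F := Polynomial.X - Polynomial.C B * Polynomial.X ^ 3 with hκ
  have hN : h0 ^ 3 + κ * h1 ^ 3 + κ ^ 2 * h2 ^ 3 - 3 * κ * h0 * h1 * h2 = 0 := by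
    apply Polynomial.eq_zero_of_infinite_isRoot
    have hi : ({0}ᶜ : Set F).Infinite := (Set.finite_singleton (0 : F)).infinite_compl
    refine hi.mono ?_
    intro w hw
    obtain ⟨z, hz⟩ := IsAlgClosed.exists_pow_nat_eq (w - B * w ^ 3) (n := 3) (by norm_num)
    have e := h z w hw hz
    rw [hh z w hz] at e
    have hk : κ.eval w = z ^ 3 := by rw [hz, hκ]; simp
    simp only [Polynomial.IsRoot, Set.mem_setOf_eq, Polynomial.eval_sub, Polynomial.eval_pow,
      Polynomial.eval_mul, Polynomial.eval_add, Polynomial.eval_ofNat, hk]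
    set p := h0.eval w
    set q := h1.eval w
    set r := h2.eval w
    linear_combination (p ^ 2 + q ^ 2 * z ^ 2 + r ^ 2 * z ^ 4 - p * q * z - p * r * z ^ 2 -
      q * r * z ^ 3) * e
  have h3 := congrArg (Polynomial.eval 0) hN
  have hk0 : κ.eval 0 = 0 := by rw [hκ]; simp
  simp only [Polynomial.eval_sub, Polynomial.eval_pow, Polynomial.eval_mul, Polynomial.eval_add,
    hk0, Polynomial.eval_zero] at h3
  have h4 : (h0.eval 0) ^ 3 = 0 := by simpa using h3
  have h5 : h0.eval 0 = 0 := pow_eq_zero_iff (three_ne_zero) |>.1 h4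
  rw [hh 0 0 (by ring), h5]
  ring

/-- the scaling factor of a variable -/
def scl (s : Fin 3 → F) (i : Ix) : F := ∏ k, s k ^ mdeg i k

lemma scl_none (s : Fin 3 → F) : scl s none = 1 := by
  simp [scl, mdeg]

lemma scl_some (s : Fin 3 → F) (i j : Fin 3) : scl s (some (i, j)) = s i := by
  fin_cases i <;> simp [scl, mdeg, Fin.prod_univ_three, Pi.single_apply]

lemma eval_scl {G : MvPolynomial Ix F} {m : Fin 3 → ℕ} (hG : IsWeightedHomogeneous mdeg G m)
    (s : Fin 3 → F) (c : Ix → F) :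
    eval (fun i => scl s i * c i) G = (∏ k, s k ^ m k) * eval c G := by
  rw [eval_eq', eval_eq', Finset.mul_sum]
  refine Finset.sum_congr rfl fun d hd => ?_
  have hw := hG (mem_support_iff.1 hd)
  have e : ∏ i, scl s i ^ d i = ∏ k, s k ^ m k := by
    unfold scl
    simp_rw [← Finset.prod_pow]
    rw [Finset.prod_comm]
    refine Finset.prod_congr rfl fun k _ => ?_
    simp_rw [← pow_mul]
    rw [Finset.prod_pow_eq_pow_sum, ← hw]
    congr 1
    rw [Finsupp.weight_apply, Finsupp.sum_fintype _ _ (by simp)]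
    simp [Finset.sum_apply, mul_comm]
  simp_rw [mul_pow]
  rw [Finset.prod_mul_distrib, e]
  ring

lemma evalRat (p : Ix → Polynomial F) (k : Ix → ℕ) (G : MvPolynomial Ix F) :
    ∃ (N : ℕ) (g : Polynomial F), ∀ m : F, m ≠ 0 →
      g.eval m = m ^ N * eval (fun i => (p i).eval m / m ^ k i) G := by
  induction G using MvPolynomial.induction_on with
  | C a => exact ⟨0, Polynomial.C a, fun m _ => by simp⟩
  | add p q hp hq =>
    obtain ⟨N, g, hg⟩ := hp
    obtain ⟨N', g', hg'⟩ := hq
    refine ⟨N + N', Polynomial.X ^ N' * g + Polynomial.X ^ N * g', fun m hm => ?_⟩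
    rw [map_add]
    simp only [Polynomial.eval_add, Polynomial.eval_mul, Polynomial.eval_pow, Polynomial.eval_X,
      hg m hm, hg' m hm]
    ring
  | mul_X q i hq =>
    obtain ⟨N, g, hg⟩ := hq
    refine ⟨N + k i, g * p i, fun m hm => ?_⟩
    rw [map_mul, eval_X, Polynomial.eval_mul, hg m hm]
    have : m ^ k i ≠ 0 := pow_ne_zero _ hm
    rw [pow_add]
    field_simp

end Pool.Agent.Y804.PK
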