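import Pool.Agent.Y804.PK.Defs

/-! Scaling isomorphisms of the curves `y² = x³ + B`, and a point of infinite order. -/

set_option autoImplicit false

namespace Pool.Agent.Y804.PK

open WeierstrassCurve WeierstrassCurve.Affine

variable {F : Type} [Field F]

lemma eq_iff (B x y : F) : (W F B).toAffine.Equation x y ↔ y ^ 2 = x ^ 3 + B := by
  rw [Affine.equation_iff]
  simp [W]

lemma ns_iff (B x y : F) : (W F B).toAffine.Nonsingular x y ↔
    y ^ 2 = x ^ 3 + B ∧ (3 * x ^ 2 ≠ 0 ∨ 2 * y ≠ 0) := by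
  rw [Affine.nonsingular_iff', eq_iff]
  simp [W]

lemma ns_of_eq [CharZero F] {B x y : F} (hB : B ≠ 0) (h : y ^ 2 = x ^ 3 + B) :
    (W F B).toAffine.Nonsingular x y := by
  refine (ns_iff B x y).2 ⟨h, ?_⟩
  by_contra hc
  push Not at hc
  obtain ⟨h1, h2⟩ := hc
  have hx : x = 0 := by
    have := mul_eq_zero.1 h1
    rcases this with h | h
    · norm_num at h
    · exact pow_eq_zero_iff (two_ne_zero) |>.1 h
  have hy : y = 0 := by
    rcases mul_eq_zero.1 h2 with h | h
    · norm_num at h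
    · exact h
  apply hB
  rw [hx, hy] at h
  simpa using h.symm

lemma ns_scale {a B B' : F} (ha : a ≠ 0) (hB : B' = a ^ 6 * B) {x y : F}
    (h : (W F B).toAffine.Nonsingular x y) :
    (W F B').toAffine.Nonsingular (a ^ 2 * x) (a ^ 3 * y) := by
  rw [ns_iff] at h ⊢
  obtain ⟨h1, h2⟩ := h
  refine ⟨by rw [hB]; linear_combination a ^ 6 * h1, ?_⟩
  rcases h2 with h2 | h2
  · left
    have : 3 * (a ^ 2 * x) ^ 2 = a ^ 4 * (3 * x ^ 2) := by ring
    rw [this]
    exact mul_ne_zero (pow_ne_zero _ ha) h2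
  · right
    have : 2 * (a ^ 3 * y) = a ^ 3 * (2 * y) := by ring
    rw [this]
    exact mul_ne_zero (pow_ne_zero _ ha) h2

/-- the map `(x, y) ↦ (a² x, a³ y)` -/
def scaleFun {a B B' : F} (ha : a ≠ 0) (hB : B' = a ^ 6 * B) :
    (W F B).toAffine.Point → (W F B').toAffine.Point
  | .zero => .zero
  | .some x y h => .some (a ^ 2 * x) (a ^ 3 * y) (ns_scale ha hB h)

variable [DecidableEq F]

lemma negY_W (B x y : F) : (W F B).toAffine.negY x y = -y := by
  simp [W, Affine.negY]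

lemma slope_scale {a B B' : F} (ha : a ≠ 0) (x₁ x₂ y₁ y₂ : F) :
    (W F B').toAffine.slope (a ^ 2 * x₁) (a ^ 2 * x₂) (a ^ 3 * y₁) (a ^ 3 * y₂) =
      a * (W F B).toAffine.slope x₁ x₂ y₁ y₂ := by
  have ha2 : a ^ 2 ≠ 0 := pow_ne_zero _ ha
  have ha3 : a ^ 3 ≠ 0 := pow_ne_zero _ ha
  by_cases hx : x₁ = x₂
  · by_cases hy : y₁ = -y₂
    · rw [Affine.slope_of_Y_eq (by rw [hx]) (by rw [negY_W, hy]; ring),
        Affine.slope_of_Y_eq hx (by rw [negY_W, hy]), mul_zero]
    · have hy' : a ^ 3 * y₁ ≠ (W F B').toAffine.negY (a ^ 2 * x₂) (a ^ 3 * y₂) := by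
        rw [negY_W]
        intro h
        apply hy
        apply mul_left_cancel₀ ha3
        rw [h]; ring
      rw [Affine.slope_of_Y_ne (by rw [hx]) hy', Affine.slope_of_Y_ne hx (by rwa [negY_W])]
      rw [negY_W, negY_W]
      simp only [W]
      by_cases h2 : y₁ - -y₁ = 0
      · have : a ^ 3 * y₁ - -(a ^ 3 * y₁) = 0 := by linear_combination a ^ 3 * h2
        rw [h2, this, div_zero, div_zero, mul_zero]
      · have h3 : a ^ 3 * y₁ - -(a ^ 3 * y₁) ≠ 0 := by
          have e : a ^ 3 * y₁ - -(a ^ 3 * y₁) = a ^ 3 * (y₁ - -y₁) := by ring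
          rw [e]
          exact mul_ne_zero ha3 h2
        field_simp
        ring
  · have hx' : a ^ 2 * x₁ ≠ a ^ 2 * x₂ := fun h => hx (mul_left_cancel₀ ha2 h)
    rw [Affine.slope_of_X_ne hx', Affine.slope_of_X_ne hx]
    have h1 : x₁ - x₂ ≠ 0 := sub_ne_zero.2 hx
    have h2 : a ^ 2 * x₁ - a ^ 2 * x₂ ≠ 0 := sub_ne_zero.2 hx'
    field_simp

lemma point_ext {V : WeierstrassCurve F} {x x' y y' : F} (h : V.toAffine.Nonsingular x y)
    (h' : V.toAffine.Nonsingular x' y') (hx : x = x') (hy : y = y') :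
    (Point.some x y h : V.toAffine.Point) = .some x' y' h' := by
  subst hx hy
  rfl

lemma scaleFun_add {a B B' : F} (ha : a ≠ 0) (hB : B' = a ^ 6 * B)
    (P Q : (W F B).toAffine.Point) :
    scaleFun ha hB (P + Q) = scaleFun ha hB P + scaleFun ha hB Q := by
  rcases P with _ | ⟨x₁, y₁, h₁⟩
  · change scaleFun ha hB (0 + Q) = 0 + scaleFun ha hB Q
    rw [zero_add, zero_add]
  rcases Q with _ | ⟨x₂, y₂, h₂⟩
  · change scaleFun ha hB (_ + 0) = scaleFun ha hB _ + 0
    rw [add_zero, add_zero]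
  have ha2 : a ^ 2 ≠ 0 := pow_ne_zero _ ha
  have ha3 : a ^ 3 ≠ 0 := pow_ne_zero _ ha
  by_cases hxy : x₁ = x₂ ∧ y₁ = (W F B).toAffine.negY x₂ y₂
  · rw [Point.add_of_Y_eq hxy.1 hxy.2]
    change (0 : (W F B').toAffine.Point) = Point.some _ _ _ + Point.some _ _ _
    rw [Point.add_of_Y_eq (by rw [hxy.1]) (by rw [negY_W, hxy.2, negY_W]; ring)]
  · have hxy' : ¬(a ^ 2 * x₁ = a ^ 2 * x₂ ∧
        a ^ 3 * y₁ = (W F B').toAffine.negY (a ^ 2 * x₂) (a ^ 3 * y₂)) := by
      rintro ⟨h, h'⟩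
      apply hxy
      refine ⟨mul_left_cancel₀ ha2 h, ?_⟩
      rw [negY_W] at h' ⊢
      apply mul_left_cancel₀ ha3
      rw [h']; ring
    rw [Point.add_some hxy]
    change Point.some _ _ _ = Point.some _ _ _ + Point.some _ _ _
    rw [Point.add_some hxy']
    apply point_ext
    · rw [slope_scale (B := B) ha]
      simp only [Affine.addX, W]
      ring
    · rw [slope_scale (B := B) ha]
      simp only [Affine.addY, Affine.negAddY, Affine.addX, Affine.negY, W]
      ring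

/-- the scaling homomorphism -/
def scale {a B B' : F} (ha : a ≠ 0) (hB : B' = a ^ 6 * B) :
    (W F B).toAffine.Point →+ (W F B').toAffine.Point where
  toFun := scaleFun ha hB
  map_zero' := rfl
  map_add' := scaleFun_add ha hB

lemma scale_zero' {a B B' : F} (ha : a ≠ 0) (hB : B' = a ^ 6 * B) :
    scale ha hB Point.zero = Point.zero := rfl

lemma scale_some {a B B' : F} (ha : a ≠ 0) (hB : B' = a ^ 6 * B) {x y : F}
    (h : (W F B).toAffine.Nonsingular x y) :
    scale ha hB (Point.some x y h) = Point.some (a ^ 2 * x) (a ^ 3 * y) (ns_scale ha hB h) := rfl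

lemma scale_inj {a B B' : F} (ha : a ≠ 0) (hB : B' = a ^ 6 * B) :
    Function.Injective (scale ha hB) := by
  rw [injective_iff_map_eq_zero]
  rintro (_ | ⟨x, y, h⟩) hp
  · rfl
  · rw [scale_some] at hp
    exact absurd hp (Point.some_ne_zero _)

end Pool.Agent.Y804.PK
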