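import Pool.Agent.Y804.PK.Poly

/-! Topological lemmas. -/

set_option autoImplicit false

namespace Pool.Agent.Y804.PK

open MvPolynomial

section general

variable {α : Type} [TopologicalSpace α] [T1Space α]

lemma finite_irred {C : Set α} (hC : IsIrreducible C) (hf : C.Finite) : ∃ x, C = {x} := by
  obtain ⟨x, hx⟩ := hC.nonempty
  refine ⟨x, ?_⟩
  have h1 : IsClosed ({x} : Set α) := isClosed_singleton
  have h2 : IsClosed (C \ {x}) := (hf.subset Set.diff_subset).isClosed
  have h3 : C ⊆ {x} ∪ (C \ {x}) := by
    intro y hy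
    by_cases h : y = x
    · exact Or.inl h
    · exact Or.inr ⟨hy, h⟩
  rcases (isPreirreducible_iff_isClosed_union_isClosed.1 hC.isPreirreducible) _ _ h1 h2 h3 with h | h
  · exact Set.Subset.antisymm h (Set.singleton_subset_iff.2 hx)
  · exact absurd rfl (h hx).2

lemma krull_aux [Infinite α] (h : ∀ Z : Set α, IsClosed Z → Z = Set.univ ∨ Z.Finite) :
    IsIrreducible (Set.univ : Set α) ∧ topologicalKrullDim α = 1 := by
  have hirr : IsIrreducible (Set.univ : Set α) := by
    refine ⟨Set.univ_nonempty, isPreirreducible_iff_isClosed_union_isClosed.2 ?_⟩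
    intro Z₁ Z₂ h₁ h₂ hu
    rcases h Z₁ h₁ with h₁ | h₁
    · exact Or.inl h₁.ge
    rcases h Z₂ h₂ with h₂ | h₂
    · exact Or.inr h₂.ge
    exact absurd ((h₁.union h₂).subset hu) Set.infinite_univ
  refine ⟨hirr, ?_⟩
  unfold topologicalKrullDim
  apply le_antisymm
  · rw [Order.krullDim_le_one_iff]
    intro C
    rcases h C.carrier C.isClosed' with hC | hC
    · right
      intro D _
      change D.carrier ⊆ C.carrier
      rw [hC]
      exact Set.subset_univ _
    · left
      intro D hD
      have hD' : D.carrier ⊆ C.carrier := hD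
      obtain ⟨x, hx⟩ := finite_irred C.isIrreducible' hC
      obtain ⟨y, hy⟩ := D.isIrreducible'.nonempty
      change C.carrier ⊆ D.carrier
      rw [hx] at hD' ⊢
      rw [Set.singleton_subset_iff]
      have := hD' hy
      rw [Set.mem_singleton_iff] at this
      rwa [← this]
  · rw [Order.one_le_krullDim_iff]
    obtain ⟨x⟩ : Nonempty α := inferInstance
    refine ⟨⟨{x}, isIrreducible_singleton, isClosed_singleton⟩, ⟨Set.univ, hirr, isClosed_univ⟩, ?_⟩
    rw [lt_iff_le_not_ge]
    constructor
    · exact Set.subset_univ _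
    · intro hc
      have hc' : (Set.univ : Set α) ⊆ {x} := hc
      exact Set.infinite_univ ((Set.finite_singleton x).subset hc')

/-- an infinite set whose proper closed subsets are finite is irreducible of dimension `1` -/
lemma krull_one {Y : Set α} (hi : Y.Infinite)
    (h : ∀ Z : Set α, IsClosed Z → Y ⊆ Z ∨ (Y ∩ Z).Finite) :
    IsIrreducible Y ∧ topologicalKrullDim Y = 1 := by
  haveI : Infinite Y := hi.to_subtype
  have key := krull_aux (α := Y) ?_
  · refine ⟨?_, key.2⟩
    have := key.1.image (Subtype.val : Y → α) continuous_subtype_val.continuousOn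
    simpa using this
  · intro Z hZ
    obtain ⟨Z', hZ', rfl⟩ := isClosed_induced_iff.1 hZ
    rcases h Z' hZ' with h | h
    · left
      ext y
      simpa using h y.2
    · right
      have h2 := h.preimage (f := (Subtype.val : Y → α)) Subtype.val_injective.injOn
      refine h2.subset ?_
      intro y hy
      exact ⟨y.2, hy⟩

end general

variable {F : Type} [Field F]

lemma isClosed_iff' (Z : Set (A F)) : IsClosed Z ↔ ZClosed Z := by
  rw [← isOpen_compl_iff]
  change ZClosed (Zᶜᶜ) ↔ ZClosed Z
  rw [compl_compl]

lemma coord_eq {V V' : WeierstrassCurve F} {P : V.toAffine.Point} {Q : V'.toAffine.Point}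
    (h : ∀ j k, coord P j * coord Q k = coord P k * coord Q j) : coord P = coord Q := by
  rcases P with _ | ⟨x, y, hP⟩
  · rcases Q with _ | ⟨x', y', hQ⟩
    · rfl
    · have := h 1 2
      simp [coord] at this
  · rcases Q with _ | ⟨x', y', hQ⟩
    · have := h 2 1
      simp [coord] at this
    · have h1 := h 2 0
      have h2 := h 2 1
      simp [coord] at h1 h2
      rw [coord, coord, h1, h2]

lemma coord_inj {V : WeierstrassCurve F} {P Q : V.toAffine.Point} (h : coord P = coord Q) :
    P = Q := by
  rcases P with _ | ⟨x, y, hP⟩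
  · rcases Q with _ | ⟨x', y', hQ⟩
    · rfl
    · have := congrFun h 2
      simp [coord] at this
  · rcases Q with _ | ⟨x', y', hQ⟩
    · have := congrFun h 2
      simp [coord] at this
    · have h1 := congrFun h 0
      have h2 := congrFun h 1
      simp [coord] at h1 h2
      subst h1 h2
      rfl

lemma coordA_inj {a b : A F} (h : coordA a = coordA b) : a = b := by
  obtain ⟨t, ht, P1, P2, P3⟩ := a
  obtain ⟨t', ht', Q1, Q2, Q3⟩ := b
  have h0 : t = t' := congrFun h none
  subst h0
  have h1 : P1 = Q1 := coord_inj (funext fun j => congrFun h (some (0, j)))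
  have h2 : P2 = Q2 := coord_inj (funext fun j => congrFun h (some (1, j)))
  have h3 : P3 = Q3 := coord_inj (funext fun j => congrFun h (some (2, j)))
  subst h1 h2 h3
  rfl

lemma multihom_C (c : F) : Multihom (C c) := ⟨0, isWeightedHomogeneous_C mdeg c⟩

lemma hom_t : IsWeightedHomogeneous mdeg (X none : MvPolynomial Ix F) 0 :=
  isWeightedHomogeneous_X F mdeg none

lemma hom_X (i j : Fin 3) :
    IsWeightedHomogeneous mdeg (X (some (i, j)) : MvPolynomial Ix F) (Pi.single i 1) :=
  isWeightedHomogeneous_X F mdeg (some (i, j))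

lemma hom_C (c : F) : IsWeightedHomogeneous mdeg (C c : MvPolynomial Ix F) 0 :=
  isWeightedHomogeneous_C mdeg c

lemma hom_minor (c d : F) (i j k : Fin 3) :
    Multihom (C c * X (some (i, j)) - C d * X (some (i, k)) : MvPolynomial Ix F) := by
  refine ⟨Pi.single i 1, ?_⟩
  have h1 := (hom_C c).mul (hom_X (F := F) i j)
  have h2 := (hom_C d).mul (hom_X (F := F) i k)
  rw [zero_add] at h1 h2
  exact Submodule.sub_mem (weightedHomogeneousSubmodule F mdeg _) h1 h2

instance : T1Space (A F) := by
  refine ⟨fun a => ?_⟩
  rw [isClosed_iff']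
  refine ⟨{G | G = X none - C a.t ∨ ∃ i j k, G = C (coordA a (some (i, j))) * X (some (i, k)) -
      C (coordA a (some (i, k))) * X (some (i, j))}, ?_, ?_⟩
  · rintro G (rfl | ⟨i, j, k, rfl⟩)
    · exact ⟨0, Submodule.sub_mem (weightedHomogeneousSubmodule F mdeg _) hom_t (hom_C _)⟩
    · exact hom_minor _ _ _ _ _
  · ext b
    simp only [Set.mem_singleton_iff, Set.mem_setOf_eq]
    constructor
    · rintro rfl
      rintro G (rfl | ⟨i, j, k, rfl⟩)
      · simp [coordA]
      · simp; ring
    · intro h
      symm
      have h0 := h _ (Or.inl rfl)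
      have hm : ∀ i j k, coordA a (some (i, j)) * coordA b (some (i, k)) =
          coordA a (some (i, k)) * coordA b (some (i, j)) := by
        intro i j k
        have := h _ (Or.inr ⟨i, j, k, rfl⟩)
        simp only [map_sub, map_mul, eval_C, eval_X] at this
        linear_combination this
      apply coordA_inj
      funext ix
      rcases ix with _ | ⟨i, j⟩
      · simp only [map_sub, eval_X, eval_C] at h0
        have : coordA b none = a.t := sub_eq_zero.1 h0
        rw [this]
        rfl
      · fin_cases i
        · exact congrFun (coord_eq (P := a.P.1) (Q := b.P.1) fun j k => hm 0 j k) j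
        · exact congrFun (coord_eq (P := a.P.2.1) (Q := b.P.2.1) fun j k => hm 1 j k) j
        · exact congrFun (coord_eq (P := a.P.2.2) (Q := b.P.2.2) fun j k => hm 2 j k) j

end Pool.Agent.Y804.PK
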